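import Pool.Agent.Zk89.SteklovFourier
import Pool.Agent.Zk89.SteklovBesov

/-!
# The Besov form of the lower bound for the Steklov zeta-invariants of a real function

For every `k ≥ 2` there is `c_k > 0` with
`Z_k(a) ≥ c_k ∑_N N^(2k+1) (∑_{N ≤ n < 2N} |â_n|^2)^k`, `N = 2, 4, 8, …`, for all smooth real
`2π`-periodic functions `a`. Since `∑_{N ≤ n < 2N} |â_n|^(2k) ≤ (∑_{N ≤ n < 2N} |â_n|^2)^k` this
contains the inequality of Q1 (with another constant). The right side is the `2k`-th power of a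
Besov norm of order `1 + 1/(2k)`, with `ℓ^2` sums in the dyadic blocks, which may be larger than
the sum of Q1 by the factor `N^(k-1)` in the block of `N`.

Proof. Let `A` be the Hermitian matrix `√|x| √|y| â_(y-x)` (`x, y ∈ [-L, L]`) and `S` the diagonal
matrix of signs. Then `Z_k(a) = lim (Tr A^(2k) - Tr (SA)^(2k))`. With `Δ = A² - S A² S`:

* a Cauchy-Schwarz argument on words in `A` and `S` gives
  `Re Tr (SA)^(2k) ≤ Tr A^(2k) - 2^(2-k) (Tr A^(2k) - Re Tr (A^(2k-2) S A² S))`;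
* a telescoping argument and Jensen's inequality in an eigenbasis of `Δ` give
  `Tr A^(2k) - Re Tr (SA)^(2k) ≥ 2^(-k) Tr |Δ|^k`;
* the entry of `Δ` at `(m, -p)`, `m, p > 0`, has the absolute value `2 √(mp) |K_(m+p)(p)|`,
  `K_s(p) = ∑_j |j - p| â_j â_(s-j)`, and the second difference of `K_s` at `p` is `2 â_p â_(s-p)`;
  summation by parts against a cut-off function and `∑_s |(f*f)(s)|² ≥ (∑ |f|²)²` bound the
  Hilbert-Schmidt norm of the dyadic block of `Δ` from below by `N^(5/2) ∑_{N ≤ n < 2N} |â_n|²`,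
  and Hölder's inequality passes to the exponent `k`.
-/

set_option autoImplicit false

open scoped ContDiff

namespace Pool.Agent.Results.MP_ed7f76_gt.BesovLowerBound

open Pool.Agent.Zk89.Steklov

/-- The Fourier coefficient `â_n = (1/2π) ∫₀^{2π} a(θ) e^{-inθ} dθ`. -/
noncomputable def fourierCoef (a : ℝ → ℝ) (n : ℤ) : ℂ :=
  ((1 / (2 * Real.pi) : ℝ) : ℂ) *
    ∫ θ in (0 : ℝ)..(2 * Real.pi), (a θ : ℂ) * Complex.exp (-(n * θ) * Complex.I)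

/-- `f(n) = n (n + j₁) (n + j₁ + j₂) ⋯ (n + j₁ + ⋯ + j_{2k-1})`: the product over the `2k` indices
`i` of `n + ∑_{l < i} j_l`. -/
def f (k : ℕ) (j : Fin (2 * k) → ℤ) (n : ℤ) : ℤ := ∏ i, (n + ∑ l ∈ Finset.Iio i, j l)

/-- `N_{j₁ ⋯ j_{2k}} = ∑_{n ∈ ℤ} (|f(n)| - f(n))` (a finite sum). -/
noncomputable def N (k : ℕ) (j : Fin (2 * k) → ℤ) : ℤ := ∑ᶠ n : ℤ, (|f k j n| - f k j n)

/-- `Z_k(a) = ∑_{j₁ + ⋯ + j_{2k} = 0} N_{j₁ ⋯ j_{2k}} â_{j₁} ⋯ â_{j_{2k}}`. -/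
noncomputable def zetaInvariant (k : ℕ) (a : ℝ → ℝ) : ℂ :=
  ∑' j : {j : Fin (2 * k) → ℤ // ∑ i, j i = 0}, (N k j.1 : ℂ) * ∏ i, fourierCoef a (j.1 i)

/-- The energy `∑_{2^(i+1) ≤ n < 2^(i+2)} |â_n|²` of the `i`-th dyadic block, `i = 0, 1, 2, …`. The
blocks cover exactly the integers `n ≥ 2`. -/
noncomputable def blockEnergy (a : ℝ → ℝ) (i : ℕ) : ℝ :=
  ∑ n ∈ Finset.Ico (2 ^ (i + 1) : ℕ) (2 ^ (i + 2)), ‖fourierCoef a (n : ℕ)‖ ^ 2

/-- For every `k ≥ 2` there is `c > 0`, depending only on `k`, such that for every smooth real-valued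
`2π`-periodic function `a` the series `Z_k(a)` converges absolutely, its sum is real, and
`Z_k(a) ≥ c ∑_{i ≥ 0} (2^(i+1))^(2k+1) (∑_{2^(i+1) ≤ n < 2^(i+2)} |â_n|²)^k`. -/
theorem result (k : ℕ) (hk : 2 ≤ k) :
    (∀ j : Fin (2 * k) → ℤ, (Function.support fun n : ℤ => |f k j n| - f k j n).Finite) ∧
    ∃ c : ℝ, 0 < c ∧ ∀ a : ℝ → ℝ, ContDiff ℝ ∞ a → Function.Periodic a (2 * Real.pi) →
      Summable (fun j : {j : Fin (2 * k) → ℤ // ∑ i, j i = 0} =>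
        ‖(N k j.1 : ℂ) * ∏ i, fourierCoef a (j.1 i)‖) ∧
      (zetaInvariant k a).im = 0 ∧
      Summable (fun i : ℕ => ((2 : ℝ) ^ (i + 1)) ^ (2 * k + 1) * blockEnergy a i ^ k) ∧
      c * ∑' i : ℕ, ((2 : ℝ) ^ (i + 1)) ^ (2 * k + 1) * blockEnergy a i ^ k ≤
        (zetaInvariant k a).re := by
  obtain ⟨m, rfl⟩ : ∃ m, k = m + 2 := ⟨k - 2, by omega⟩
  have hev : Even (2 * (m + 2)) := ⟨m + 2, by ring⟩
  refine ⟨fun j => (Finset.finite_toSet _).subset (fpoly_support hev j), ?_⟩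
  obtain ⟨c, hc0, hc⟩ := main_besov m
  refine ⟨c, hc0, fun a ha hp => ?_⟩
  have hb := fc_rapid a ha hp
  have hcj : ∀ n, fc a (-n) = (starRingEnd ℂ) (fc a n) := fc_neg a
  obtain ⟨h1, h2⟩ := hc (fc a) hb hcj
  exact ⟨ZK_summable hev hb, ZK_real (n := 2 * m + 3) ⟨m + 2, by ring⟩ hb hcj, h1, h2⟩

end Pool.Agent.Results.MP_ed7f76_gt.BesovLowerBound
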